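import Pool.Agent.K3h25.CM.Main

/-! The three families of congruences for the limiting two-colour partition function. -/

open PowerSeries Finset Filter Topology
open scoped PowerSeries.WithPiTopology

namespace Pool.Agent.Results.MP_e258d6_nt.AllCongruences

/-- `(a; b)_∞`, the infinite product of `1 - a b ^ j` over `j ≥ 0`, for power series `a`, `b` over
the integers, with coefficientwise convergence. -/
noncomputable def poch (a b : ℤ⟦X⟧) : ℤ⟦X⟧ := ∏' j : ℕ, (1 - a * b ^ j)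

/-- The summand: `(-q^(2m+2); q^2)_∞ q^(2m+1)` divided by `(q^(2m+1); q^2)_∞ ^ 2`. -/
noncomputable def term (m : ℕ) : ℤ⟦X⟧ :=
  poch (-X ^ (2 * m + 2)) (X ^ 2) * X ^ (2 * m + 1) *
    invOfUnit (poch (X ^ (2 * m + 1)) (X ^ 2) ^ 2) 1

/-- The integers `c(n)`: the coefficients of the sum of the series `term m`. -/
noncomputable def c (n : ℕ) : ℤ := coeff n (∑' m : ℕ, term m)

open Pool.Agent.K3h25.CM in
theorem poch_eq (a : ℤ⟦X⟧) : poch a (X ^ 2) = Q a := by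
  unfold poch Q
  refine tprod_congr fun i => ?_
  rw [pow_mul]

open Pool.Agent.K3h25.CM in
theorem term_eq (m : ℕ) : term m = X ^ (2 * m + 1) * (Q (-X ^ (2 * m + 2)) * I (X ^ (2 * m + 1)) *
    I (X ^ (2 * (m + 0) + 1))) := by
  unfold term
  rw [poch_eq, poch_eq, add_zero]
  have h1 := Q_mul_I (a := (X ^ (2 * m + 1) : ℤ⟦X⟧)) (X_dvd_pow (2 * m))
  have h2 : Q (X ^ (2 * m + 1)) ^ 2 * invOfUnit (Q (X ^ (2 * m + 1)) ^ 2) 1 = 1 :=
    mul_Iv (by rw [map_pow, Q_cc (X_dvd_pow (2 * m)), one_pow])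
  have h3 : invOfUnit (Q (X ^ (2 * m + 1)) ^ 2) 1 = I (X ^ (2 * m + 1)) ^ 2 := by
    have h4 : Q (X ^ (2 * m + 1)) ^ 2 * I (X ^ (2 * m + 1)) ^ 2 = 1 := by
      rw [← mul_pow, h1, one_pow]
    linear_combination (- invOfUnit (Q (X ^ (2 * m + 1)) ^ 2) 1) * h4 +
      I (X ^ (2 * m + 1)) ^ 2 * h2
  rw [h3]
  ring

/-- Everything in the definition converges and the quotient is a true quotient. -/
theorem wellDefined : (∀ m : ℕ, Multipliable fun j : ℕ => 1 - (-X ^ (2 * m + 2)) * ((X : ℤ⟦X⟧) ^ 2) ^ j) ∧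
    (∀ m : ℕ, Multipliable fun j : ℕ => 1 - X ^ (2 * m + 1) * ((X : ℤ⟦X⟧) ^ 2) ^ j) ∧
    (∀ m : ℕ, poch (X ^ (2 * m + 1)) (X ^ 2) ^ 2 *
      invOfUnit (poch (X ^ (2 * m + 1)) (X ^ 2) ^ 2) 1 = 1) ∧ Summable term := by
  refine ⟨fun m => ?_, fun m => ?_, fun m => ?_, ?_⟩
  · simp only [← pow_mul]
    exact Pool.Agent.K3h25.CM.mult (Pool.Agent.K3h25.CM.Q_aux _)
  · simp only [← pow_mul]
    exact Pool.Agent.K3h25.CM.mult (Pool.Agent.K3h25.CM.Q_aux _)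
  · rw [poch_eq]
    exact Pool.Agent.K3h25.CM.mul_Iv
      (by rw [map_pow, Pool.Agent.K3h25.CM.Q_cc (Pool.Agent.K3h25.CM.X_dvd_pow (2 * m)), one_pow])
  · refine Pool.Agent.K3h25.CM.summ fun m => ?_
    rw [term_eq]
    exact Pool.Agent.K3h25.CM.X_odd_dvd m _

/-- All three families of congruences, for all `k ≥ 1` and `n ≥ 0` (the series that defines `c`
converges, by the first conjunct). -/
theorem result : Summable term ∧ ∀ k n : ℕ, 1 ≤ k →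
    (4 : ℤ) ∣ c (2 ^ (2 * k + 3) * n + (11 * 4 ^ k + 1) / 3) ∧
    (8 : ℤ) ∣ c (2 ^ (2 * k + 3) * n + (17 * 4 ^ k + 1) / 3) ∧
    (4 : ℤ) ∣ c (2 ^ (2 * k + 4) * n + (38 * 4 ^ k + 1) / 3) := by
  refine ⟨wellDefined.2.2.2, fun k n hk => ?_⟩
  have h : ∀ N : ℕ, c N = coeff N (Pool.Agent.K3h25.CM.CC 0) := by
    intro N
    unfold c Pool.Agent.K3h25.CM.CC
    rw [tsum_congr term_eq]
  rw [h, h, h]
  exact ⟨Pool.Agent.K3h25.CM.fam1 hk n, Pool.Agent.K3h25.CM.fam2 hk n,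
    Pool.Agent.K3h25.CM.fam3 hk n⟩

end Pool.Agent.Results.MP_e258d6_nt.AllCongruences
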